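import Mathlib

/-!
# Markov-modulated Poisson processes: definitions and basic facts

`C = Q - D` where `Q` is the generator of an irreducible chain on `Fin p` and `D` is the diagonal
matrix of event rates.
-/

open Matrix MeasureTheory ProbabilityTheory Filter Topology

namespace Pool.Agent.Helper54

/-- The data `(Q, D)` of a Markov-modulated Poisson process of order `p`. -/
structure MMPP (p : ℕ) where
  /-- generator of the background chain -/
  Q : Matrix (Fin p) (Fin p) ℝ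
  /-- event rates -/
  rate : Fin p → ℝ
  offdiag_nonneg : ∀ i j, i ≠ j → 0 ≤ Q i j
  row_sum : ∀ i, ∑ j, Q i j = 0
  irreducible : ∀ i j, Relation.ReflTransGen (fun a b => 0 < Q a b) i j
  rate_nonneg : ∀ i, 0 ≤ rate i
  rate_ne_zero : ∃ i, rate i ≠ 0

namespace MMPP

variable {p : ℕ} (M : MMPP p)

/-- `D = diag(rate)`. -/
def D : Matrix (Fin p) (Fin p) ℝ := Matrix.diagonal M.rate

/-- `C = Q - D`. -/
def C : Matrix (Fin p) (Fin p) ℝ := M.Q - M.D

/-- `x` is the stationary distribution of the background chain. -/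
def IsStationary (x : Fin p → ℝ) : Prop :=
  (∀ i, 0 ≤ x i) ∧ ∑ i, x i = 1 ∧ x ᵥ* M.Q = 0

/-- The distribution `x D / (x D 1)` of the phase at event epochs. -/
noncomputable def eventStationary (x : Fin p → ℝ) : Fin p → ℝ :=
  (x ᵥ* M.D ⬝ᵥ 1)⁻¹ • (x ᵥ* M.D)

/-- `P(T₁ > t)` if the background chain starts from the distribution `η`:
`η e^{C t} 1`. -/
noncomputable def survival (η : Fin p → ℝ) (t : ℝ) : ℝ :=
  η ⬝ᵥ (NormedSpace.exp (t • M.C) *ᵥ 1)

end MMPP

/-! ### Exponentials of Metzler matrices are entrywise nonnegative -/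

section Exp

variable {n : Type*} [Fintype n] [DecidableEq n]

open scoped Matrix.Norms.Operator

theorem exp_entry_nonneg (A : Matrix n n ℝ) (hA : ∀ i j, 0 ≤ A i j) (i j : n) :
    0 ≤ NormedSpace.exp A i j := by
  have hs := NormedSpace.exp_series_hasSum_exp' (𝕂 := ℝ) A
  have hpow : ∀ k : ℕ, ∀ i j, 0 ≤ (A ^ k) i j := by
    intro k
    induction k with
    | zero =>
      intro i j
      rw [pow_zero, Matrix.one_apply]
      split_ifs <;> norm_num
    | succ k ih =>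
      intro i j
      rw [pow_succ, Matrix.mul_apply]
      exact Finset.sum_nonneg fun l _ => mul_nonneg (ih i l) (hA l j)
  have h1 : HasSum (fun k : ℕ => ((k.factorial : ℝ)⁻¹ • A ^ k) i j) (NormedSpace.exp A i j) := by
    have hc : Continuous fun B : Matrix n n ℝ => B i j := by fun_prop
    exact hs.map (⟨⟨fun B : Matrix n n ℝ => B i j, rfl⟩, fun _ _ => rfl⟩ : Matrix n n ℝ →+ ℝ) hc
  refine h1.nonneg fun k => ?_
  simp only [Matrix.smul_apply, smul_eq_mul]
  exact mul_nonneg (by positivity) (hpow k i j)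

theorem exp_entry_nonneg_of_metzler (A : Matrix n n ℝ) (hA : ∀ i j, i ≠ j → 0 ≤ A i j) (i j : n) :
    0 ≤ NormedSpace.exp A i j := by
  obtain ⟨c, hc⟩ : ∃ c : ℝ, ∀ i, 0 ≤ A i i + c := by
    refine ⟨∑ i, |A i i|, fun i => ?_⟩
    have h1 : |A i i| ≤ ∑ i, |A i i| :=
      Finset.single_le_sum (f := fun i => |A i i|) (fun _ _ => abs_nonneg _) (Finset.mem_univ i)
    have h2 := neg_abs_le (A i i)
    linarith
  have hdec : A = (A + c • (1 : Matrix n n ℝ)) + (-c) • (1 : Matrix n n ℝ) := by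
    simp
  have hcomm : Commute (A + c • (1 : Matrix n n ℝ)) ((-c) • (1 : Matrix n n ℝ)) :=
    (Commute.one_right _).smul_right _
  rw [hdec, Matrix.exp_add_of_commute _ _ hcomm]
  have hexp : NormedSpace.exp ((-c) • (1 : Matrix n n ℝ)) = Real.exp (-c) • (1 : Matrix n n ℝ) := by
    have : (-c) • (1 : Matrix n n ℝ) = Matrix.diagonal (fun _ => -c) := by
      rw [← Matrix.diagonal_one, ← Matrix.diagonal_smul]; congr 1; ext; simp
    rw [this, Matrix.exp_diagonal]
    rw [← Matrix.diagonal_one, ← Matrix.diagonal_smul]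
    congr 1
    ext k
    rw [Pi.exp_def]
    simp [Real.exp_eq_exp_ℝ]
  rw [hexp, Matrix.mul_smul, mul_one, Matrix.smul_apply, smul_eq_mul]
  refine mul_nonneg (Real.exp_pos _).le (exp_entry_nonneg _ ?_ i j)
  intro k l
  simp only [Matrix.add_apply, Matrix.smul_apply, Matrix.one_apply, smul_eq_mul]
  by_cases h : k = l
  · subst h; simpa using hc k
  · simpa [h] using hA k l h

theorem hasDerivAt_bilin (A : Matrix n n ℝ) (x y : n → ℝ) (t : ℝ) :
    HasDerivAt (fun u : ℝ => x ⬝ᵥ (NormedSpace.exp (u • A) *ᵥ y))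
      (x ⬝ᵥ (NormedSpace.exp (t • A) *ᵥ (A *ᵥ y))) t := by
  have h := hasDerivAt_exp_smul_const (𝕂 := ℝ) A t
  have hL : HasDerivAt (fun u : ℝ => x ⬝ᵥ (NormedSpace.exp (u • A) *ᵥ y))
      (x ⬝ᵥ ((NormedSpace.exp (t • A) * A) *ᵥ y)) t := by
    let L : Matrix n n ℝ →ₗ[ℝ] ℝ :=
      { toFun := fun B => x ⬝ᵥ (B *ᵥ y)
        map_add' := fun B B' => by rw [Matrix.add_mulVec, dotProduct_add]
        map_smul' := fun c B => by
          rw [Matrix.smul_mulVec, dotProduct_smul]; rfl }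
    exact (L.toContinuousLinearMap.hasFDerivAt.comp_hasDerivAt t h)
  rwa [← Matrix.mulVec_mulVec] at hL

theorem hasDerivAt_bilin' (A : Matrix n n ℝ) (x y : n → ℝ) (t : ℝ) :
    HasDerivAt (fun u : ℝ => x ⬝ᵥ (NormedSpace.exp (u • A) *ᵥ y))
      ((x ᵥ* A) ⬝ᵥ (NormedSpace.exp (t • A) *ᵥ y)) t := by
  have h := hasDerivAt_exp_smul_const' (𝕂 := ℝ) A t
  have hL : HasDerivAt (fun u : ℝ => x ⬝ᵥ (NormedSpace.exp (u • A) *ᵥ y))
      (x ⬝ᵥ ((A * NormedSpace.exp (t • A)) *ᵥ y)) t := by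
    let L : Matrix n n ℝ →ₗ[ℝ] ℝ :=
      { toFun := fun B => x ⬝ᵥ (B *ᵥ y)
        map_add' := fun B B' => by rw [Matrix.add_mulVec, dotProduct_add]
        map_smul' := fun c B => by
          rw [Matrix.smul_mulVec, dotProduct_smul]; rfl }
    exact (L.toContinuousLinearMap.hasFDerivAt.comp_hasDerivAt t h)
  rwa [← Matrix.mulVec_mulVec, Matrix.dotProduct_mulVec] at hL

end Exp

namespace MMPP

variable {p : ℕ} (M : MMPP p)

theorem C_apply (i j : Fin p) : M.C i j = M.Q i j - if i = j then M.rate i else 0 := by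
  simp [C, D, Matrix.diagonal_apply]

theorem C_offdiag (i j : Fin p) (h : i ≠ j) : 0 ≤ M.C i j := by
  rw [C_apply]; simpa [h] using M.offdiag_nonneg i j h

/-- `(C w) i = ∑ Q i j (w j - w i) - rate i * w i`. -/
theorem C_mulVec (w : Fin p → ℝ) (i : Fin p) :
    (M.C *ᵥ w) i = ∑ j, M.Q i j * (w j - w i) - M.rate i * w i := by
  have h1 : (M.C *ᵥ w) i = ∑ j, M.Q i j * w j - M.rate i * w i := by
    rw [C, D, Matrix.sub_mulVec, Pi.sub_apply, Matrix.mulVec_diagonal]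
    rfl
  have h2 : ∑ j, M.Q i j * (w j - w i) = ∑ j, M.Q i j * w j - (∑ j, M.Q i j) * w i := by
    rw [Finset.sum_mul, ← Finset.sum_sub_distrib]
    exact Finset.sum_congr rfl fun j _ => by ring
  rw [h1, h2, M.row_sum i]; ring

theorem C_mulVec_one (i : Fin p) : (M.C *ᵥ 1) i = - M.rate i := by
  rw [C_mulVec]; simp

theorem sum_Q_nonneg_of_min {w : Fin p → ℝ} {i : Fin p} (hi : ∀ j, w i ≤ w j) :
    0 ≤ ∑ j, M.Q i j * (w j - w i) := by
  refine Finset.sum_nonneg fun j _ => ?_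
  by_cases h : i = j
  · subst h; simp
  · exact mul_nonneg (M.offdiag_nonneg i j h) (by linarith [hi j])

/-- Minimum principle. -/
theorem nonneg_of_C_nonpos {w : Fin p → ℝ} (h : ∀ i, (M.C *ᵥ w) i ≤ 0) : ∀ i, 0 ≤ w i := by
  obtain ⟨i₀, -⟩ := M.rate_ne_zero
  obtain ⟨m, -, hm⟩ := Finset.exists_min_image Finset.univ w ⟨i₀, Finset.mem_univ _⟩
  by_contra hcon
  push Not at hcon
  obtain ⟨k, hk⟩ := hcon
  have hmneg : w m < 0 := lt_of_le_of_lt (hm k (Finset.mem_univ k)) hk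
  -- all states reachable from `m` are minimizers with zero rate
  have key : ∀ i, Relation.ReflTransGen (fun a b => 0 < M.Q a b) m i → w i = w m := by
    intro i hi
    induction hi with
    | refl => rfl
    | @tail a b _ hab ih =>
      have hmin : ∀ j, w a ≤ w j := fun j => by rw [ih]; exact hm j (Finset.mem_univ j)
      have h1 := h a
      rw [C_mulVec] at h1
      have h2 := M.sum_Q_nonneg_of_min hmin
      have h3 : M.rate a * w a ≤ 0 :=
        mul_nonpos_of_nonneg_of_nonpos (M.rate_nonneg a) (by rw [ih]; exact hmneg.le)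
      have h4 : ∑ j, M.Q a j * (w j - w a) = 0 := by linarith
      have h5 : ∀ j ∈ Finset.univ, M.Q a j * (w j - w a) = 0 := by
        rw [← Finset.sum_eq_zero_iff_of_nonneg]
        · exact h4
        · intro j _
          by_cases h : a = j
          · subst h; simp
          · exact mul_nonneg (M.offdiag_nonneg a j h) (by linarith [hmin j])
      have h6 := h5 b (Finset.mem_univ b)
      rcases mul_eq_zero.mp h6 with h7 | h7
      · exact absurd h7 hab.ne'
      · linarith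
  obtain ⟨r, hr⟩ := M.rate_ne_zero
  have hwr : w r = w m := key r (M.irreducible m r)
  have hmin : ∀ j, w r ≤ w j := fun j => by rw [hwr]; exact hm j (Finset.mem_univ j)
  have h1 := h r
  rw [C_mulVec] at h1
  have h2 := M.sum_Q_nonneg_of_min hmin
  have h3 : 0 < M.rate r := lt_of_le_of_ne (M.rate_nonneg r) (Ne.symm hr)
  have h4 : M.rate r * w r < 0 := mul_neg_of_pos_of_neg h3 (by rw [hwr]; exact hmneg)
  linarith

theorem isUnit_C : IsUnit M.C := by
  rw [← Matrix.mulVec_injective_iff_isUnit]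
  have hker : ∀ w, M.C *ᵥ w = 0 → w = 0 := by
    intro w hw
    have h1 := M.nonneg_of_C_nonpos (w := w) (fun i => by rw [hw]; simp)
    have h2 := M.nonneg_of_C_nonpos (w := -w) (fun i => by rw [Matrix.mulVec_neg, hw]; simp)
    ext i
    have := h1 i
    have := h2 i
    simp at this ⊢
    linarith
  intro x y hxy
  have := hker (x - y) (by rw [Matrix.mulVec_sub]; simpa [sub_eq_zero] using hxy)
  simpa [sub_eq_zero] using this

theorem isUnit_det_C : IsUnit M.C.det := (Matrix.isUnit_iff_isUnit_det _).mp M.isUnit_C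

/-- `v = (-C)⁻¹ 1`, the vector of expected first event times. -/
noncomputable def v : Fin p → ℝ := -(M.C⁻¹ *ᵥ 1)

theorem C_mulVec_v : M.C *ᵥ M.v = -1 := by
  rw [v, Matrix.mulVec_neg, Matrix.mulVec_mulVec, Matrix.mul_nonsing_inv _ M.isUnit_det_C,
    Matrix.one_mulVec]

theorem v_nonneg (i : Fin p) : 0 ≤ M.v i :=
  M.nonneg_of_C_nonpos (fun i => by rw [C_mulVec_v]; simp) i

theorem v_pos (i : Fin p) : 0 < M.v i := by
  obtain ⟨i₀, -⟩ := M.rate_ne_zero
  obtain ⟨m, -, hm⟩ := Finset.exists_min_image Finset.univ M.v ⟨i₀, Finset.mem_univ _⟩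
  have h1 : (M.C *ᵥ M.v) m = -1 := by rw [C_mulVec_v]; rfl
  rw [C_mulVec] at h1
  have h2 := M.sum_Q_nonneg_of_min (w := M.v) (i := m) (fun j => hm j (Finset.mem_univ j))
  have h3 : 1 ≤ M.rate m * M.v m := by linarith
  have h4 : 0 < M.v m := by
    rcases (M.v_nonneg m).eq_or_lt with h | h
    · rw [← h] at h3; norm_num at h3
    · exact h
  exact h4.trans_le (hm i (Finset.mem_univ i))

/-- Nonnegativity of `e^{Ct}`. -/
theorem exp_C_nonneg {t : ℝ} (ht : 0 ≤ t) (i j : Fin p) : 0 ≤ NormedSpace.exp (t • M.C) i j := by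
  apply exp_entry_nonneg_of_metzler
  intro i j hij
  rw [Matrix.smul_apply, smul_eq_mul]
  exact mul_nonneg ht (M.C_offdiag i j hij)

theorem bilin_mono {x y z : Fin p → ℝ} (hx : ∀ i, 0 ≤ x i) (hyz : ∀ i, y i ≤ z i) {t : ℝ}
    (ht : 0 ≤ t) :
    x ⬝ᵥ (NormedSpace.exp (t • M.C) *ᵥ y) ≤ x ⬝ᵥ (NormedSpace.exp (t • M.C) *ᵥ z) := by
  unfold dotProduct Matrix.mulVec dotProduct
  refine Finset.sum_le_sum fun i _ => mul_le_mul_of_nonneg_left ?_ (hx i)
  exact Finset.sum_le_sum fun j _ => mul_le_mul_of_nonneg_left (hyz j) (M.exp_C_nonneg ht i j)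

theorem bilin_nonneg {x y : Fin p → ℝ} (hx : ∀ i, 0 ≤ x i) (hy : ∀ i, 0 ≤ y i) {t : ℝ}
    (ht : 0 ≤ t) :
    0 ≤ x ⬝ᵥ (NormedSpace.exp (t • M.C) *ᵥ y) := by
  unfold dotProduct Matrix.mulVec dotProduct
  refine Finset.sum_nonneg fun i _ => mul_nonneg (hx i) ?_
  exact Finset.sum_nonneg fun j _ => mul_nonneg (M.exp_C_nonneg ht i j) (hy j)

/-- exponential decay of `x e^{Ct} v`. -/
theorem exists_decay {x : Fin p → ℝ} (hx : ∀ i, 0 ≤ x i) :
    ∃ K > 0, ∀ t, 0 ≤ t →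
      x ⬝ᵥ (NormedSpace.exp (t • M.C) *ᵥ M.v) ≤ Real.exp (-(t / K)) * (x ⬝ᵥ M.v) := by
  obtain ⟨i₀, -⟩ := M.rate_ne_zero
  have hKpos : 0 < ∑ i, M.v i := Finset.sum_pos (fun i _ => M.v_pos i) ⟨i₀, Finset.mem_univ _⟩
  refine ⟨∑ i, M.v i, hKpos, fun t ht => ?_⟩
  set K := ∑ i, M.v i with hK
  have hvK : ∀ i, M.v i ≤ K := fun i =>
    Finset.single_le_sum (f := M.v) (fun j _ => M.v_nonneg j) (Finset.mem_univ i)
  -- `e^{t/K} x e^{Ct} v` is nonincreasing
  let g : ℝ → ℝ := fun u => Real.exp (u / K) * (x ⬝ᵥ (NormedSpace.exp (u • M.C) *ᵥ M.v))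
  have hg : ∀ u, HasDerivAt g (Real.exp (u / K) * (x ⬝ᵥ (NormedSpace.exp (u • M.C) *ᵥ
      (K⁻¹ • M.v - 1)))) u := by
    intro u
    have h1 : HasDerivAt (fun u : ℝ => Real.exp (u / K)) (Real.exp (u / K) * (1 / K)) u :=
      ((hasDerivAt_id u).div_const K).exp
    have h2 := hasDerivAt_bilin M.C x M.v u
    have h3 := h1.mul h2
    have h4 : Real.exp (u / K) * (1 / K) * (x ⬝ᵥ NormedSpace.exp (u • M.C) *ᵥ M.v) +
      Real.exp (u / K) * (x ⬝ᵥ NormedSpace.exp (u • M.C) *ᵥ M.C *ᵥ M.v) =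
      Real.exp (u / K) * (x ⬝ᵥ (NormedSpace.exp (u • M.C) *ᵥ (K⁻¹ • M.v - 1))) := by
      rw [C_mulVec_v, Matrix.mulVec_sub, Matrix.mulVec_smul, Matrix.mulVec_neg, dotProduct_sub,
        dotProduct_smul, dotProduct_neg, smul_eq_mul]
      ring
    rw [← h4]
    exact h3
  have hanti : AntitoneOn g (Set.Ici 0) := by
    apply antitoneOn_of_deriv_nonpos (convex_Ici 0)
    · exact fun u _ => (hg u).continuousAt.continuousWithinAt
    · exact fun u _ => (hg u).differentiableAt.differentiableWithinAt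
    · intro u hu
      rw [interior_Ici] at hu
      rw [(hg u).deriv]
      refine mul_nonpos_of_nonneg_of_nonpos (Real.exp_pos _).le ?_
      have := M.bilin_mono (x := x) (y := K⁻¹ • M.v - 1) (z := 0) hx (fun i => ?_) (le_of_lt hu)
      · simpa using this
      · simp only [Pi.sub_apply, Pi.smul_apply, smul_eq_mul, Pi.one_apply, Pi.zero_apply]
        have : K⁻¹ * M.v i ≤ K⁻¹ * K :=
          mul_le_mul_of_nonneg_left (hvK i) (by positivity)
        rw [inv_mul_cancel₀ hKpos.ne'] at this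
        linarith
  have h0 : g t ≤ g 0 := hanti (Set.mem_Ici.mpr le_rfl) (Set.mem_Ici.mpr ht) ht
  have hg0 : g 0 = x ⬝ᵥ M.v := by
    simp [g, NormedSpace.exp_zero]
  rw [hg0] at h0
  have h1 : x ⬝ᵥ (NormedSpace.exp (t • M.C) *ᵥ M.v) =
      Real.exp (-(t / K)) * g t := by
    simp only [g]
    rw [← mul_assoc, ← Real.exp_add]
    simp
  rw [h1]
  exact mul_le_mul_of_nonneg_left h0 (Real.exp_pos _).le

theorem exists_survival_decay {x : Fin p → ℝ} (hx : ∀ i, 0 ≤ x i) :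
    ∃ K > 0, ∃ A ≥ 0, ∀ t, 0 ≤ t → M.survival x t ≤ A * Real.exp (-(t / K)) := by
  obtain ⟨K, hK, hdec⟩ := M.exists_decay hx
  obtain ⟨i₀, -⟩ := M.rate_ne_zero
  obtain ⟨m, -, hm⟩ := Finset.exists_min_image Finset.univ M.v ⟨i₀, Finset.mem_univ _⟩
  have hmpos := M.v_pos m
  have hxv : 0 ≤ x ⬝ᵥ M.v := Finset.sum_nonneg fun i _ => mul_nonneg (hx i) (M.v_nonneg i)
  refine ⟨K, hK, (M.v m)⁻¹ * (x ⬝ᵥ M.v), by positivity, fun t ht => ?_⟩
  have h1 := M.bilin_mono (x := x) (y := 1) (z := (M.v m)⁻¹ • M.v) hx (fun i => by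
    simp only [Pi.one_apply, Pi.smul_apply, smul_eq_mul]
    rw [← inv_mul_cancel₀ hmpos.ne']
    exact mul_le_mul_of_nonneg_left (hm i (Finset.mem_univ i)) (by positivity)) ht
  rw [Matrix.mulVec_smul, dotProduct_smul, smul_eq_mul] at h1
  calc M.survival x t ≤ _ := h1
    _ ≤ (M.v m)⁻¹ * (Real.exp (-(t / K)) * (x ⬝ᵥ M.v)) :=
        mul_le_mul_of_nonneg_left (hdec t ht) (by positivity)
    _ = _ := by ring

theorem survival_nonneg {x : Fin p → ℝ} (hx : ∀ i, 0 ≤ x i) {t : ℝ} (ht : 0 ≤ t) :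
    0 ≤ M.survival x t := M.bilin_nonneg hx (fun _ => zero_le_one) ht

variable {M} {x : Fin p → ℝ}

theorem IsStationary.vecMul_C (hx : M.IsStationary x) : x ᵥ* M.C = -(x ᵥ* M.D) := by
  rw [C, Matrix.vecMul_sub, hx.2.2, zero_sub]

theorem IsStationary.dot_one (hx : M.IsStationary x) : x ⬝ᵥ (1 : Fin p → ℝ) = 1 := by
  simpa [dotProduct] using hx.2.1

theorem vecMul_D (i : Fin p) : (x ᵥ* M.D) i = x i * M.rate i := by
  simp [D, Matrix.vecMul_diagonal]

/-- `π D v = 1`. -/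
theorem IsStationary.D_dot_v (hx : M.IsStationary x) : (x ᵥ* M.D) ⬝ᵥ M.v = 1 := by
  have h1 : x ᵥ* M.D = -(x ᵥ* M.C) := by rw [hx.vecMul_C, neg_neg]
  rw [h1, neg_dotProduct, ← Matrix.dotProduct_mulVec, C_mulVec_v, dotProduct_neg, hx.dot_one,
    neg_neg]

theorem IsStationary.sum_rate_v (hx : M.IsStationary x) : ∑ i, x i * M.rate i * M.v i = 1 := by
  have := hx.D_dot_v
  unfold dotProduct at this
  simpa [vecMul_D] using this

theorem IsStationary.rate_pos (hx : M.IsStationary x) : 0 < (x ᵥ* M.D) ⬝ᵥ 1 := by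
  have hnn : ∀ i, 0 ≤ x i * M.rate i := fun i => mul_nonneg (hx.1 i) (M.rate_nonneg i)
  have h0 : (x ᵥ* M.D) ⬝ᵥ 1 = ∑ i, x i * M.rate i := by
    unfold dotProduct; simp [vecMul_D]
  rw [h0]
  rcases (Finset.sum_nonneg fun i (_ : i ∈ Finset.univ) => hnn i).eq_or_lt with h | h
  · exfalso
    have h2 := (Finset.sum_eq_zero_iff_of_nonneg (fun i _ => hnn i)).mp h.symm
    have h3 : ∑ i, x i * M.rate i * M.v i = 0 :=
      Finset.sum_eq_zero fun i hi => by rw [h2 i hi, zero_mul]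
    rw [hx.sum_rate_v] at h3
    norm_num at h3
  · exact h

/-- The Dirichlet form inequality `∑ π_i rate_i v_i² ≤ π v`. -/
theorem IsStationary.dirichlet (hx : M.IsStationary x) :
    ∑ i, x i * M.rate i * M.v i ^ 2 ≤ x ⬝ᵥ M.v := by
  have h1 : ∀ i, ∑ j, M.Q i j * (M.v j - M.v i) - M.rate i * M.v i = -1 := by
    intro i
    rw [← C_mulVec, C_mulVec_v]; rfl
  have h2 : x ⬝ᵥ M.v = ∑ i, x i * M.rate i * M.v i ^ 2
      - ∑ i, ∑ j, x i * M.Q i j * (M.v i * (M.v j - M.v i)) := by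
    unfold dotProduct
    rw [← Finset.sum_sub_distrib]
    refine Finset.sum_congr rfl fun i _ => ?_
    have h3 : ∑ j, x i * M.Q i j * (M.v i * (M.v j - M.v i)) =
        x i * M.v i * ∑ j, M.Q i j * (M.v j - M.v i) := by
      rw [Finset.mul_sum]
      exact Finset.sum_congr rfl fun j _ => by ring
    rw [h3]
    have h4 : ∑ j, M.Q i j * (M.v j - M.v i) = M.rate i * M.v i - 1 := by linarith [h1 i]
    rw [h4]; ring
  have h5 : ∑ i, ∑ j, x i * M.Q i j * (M.v j ^ 2 - M.v i ^ 2) = 0 := by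
    have h6 : ∑ i, ∑ j, x i * M.Q i j * M.v j ^ 2 = 0 := by
      rw [Finset.sum_comm]
      refine Finset.sum_eq_zero fun j _ => ?_
      rw [← Finset.sum_mul]
      have : ∑ i, x i * M.Q i j = (x ᵥ* M.Q) j := by simp [Matrix.vecMul, dotProduct]
      rw [this, hx.2.2]; simp
    have h7 : ∑ i, ∑ j, x i * M.Q i j * M.v i ^ 2 = 0 := by
      refine Finset.sum_eq_zero fun i _ => ?_
      have : ∑ j, x i * M.Q i j * M.v i ^ 2 = x i * M.v i ^ 2 * ∑ j, M.Q i j := by
        rw [Finset.mul_sum]; exact Finset.sum_congr rfl fun j _ => by ring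
      rw [this, M.row_sum i, mul_zero]
    have h8 : ∑ i, ∑ j, x i * M.Q i j * (M.v j ^ 2 - M.v i ^ 2) =
        ∑ i, ∑ j, x i * M.Q i j * M.v j ^ 2 - ∑ i, ∑ j, x i * M.Q i j * M.v i ^ 2 := by
      rw [← Finset.sum_sub_distrib]
      refine Finset.sum_congr rfl fun i _ => ?_
      rw [← Finset.sum_sub_distrib]
      exact Finset.sum_congr rfl fun j _ => by ring
    rw [h8, h6, h7, sub_zero]
  have h9 : ∑ i, ∑ j, x i * M.Q i j * (M.v i * (M.v j - M.v i)) =
      (1 / 2) * ∑ i, ∑ j, x i * M.Q i j * (M.v j ^ 2 - M.v i ^ 2)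
      - (1 / 2) * ∑ i, ∑ j, x i * M.Q i j * (M.v j - M.v i) ^ 2 := by
    rw [Finset.mul_sum, Finset.mul_sum, ← Finset.sum_sub_distrib]
    refine Finset.sum_congr rfl fun i _ => ?_
    rw [Finset.mul_sum, Finset.mul_sum, ← Finset.sum_sub_distrib]
    exact Finset.sum_congr rfl fun j _ => by ring
  have h10 : 0 ≤ ∑ i, ∑ j, x i * M.Q i j * (M.v j - M.v i) ^ 2 := by
    refine Finset.sum_nonneg fun i _ => Finset.sum_nonneg fun j _ => ?_
    by_cases h : i = j
    · subst h; simp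
    · exact mul_nonneg (mul_nonneg (hx.1 i) (M.offdiag_nonneg i j h)) (sq_nonneg _)
  rw [h2, h9, h5]
  linarith

/-- The key inequality `(π D 1) (π (-C)⁻¹ 1) ≥ 1`. -/
theorem IsStationary.key (hx : M.IsStationary x) :
    1 ≤ ((x ᵥ* M.D) ⬝ᵥ 1) * (x ⬝ᵥ M.v) := by
  have h0 : (x ᵥ* M.D) ⬝ᵥ 1 = ∑ i, x i * M.rate i := by
    unfold dotProduct; simp [vecMul_D]
  have hnn : ∀ i, 0 ≤ x i * M.rate i := fun i => mul_nonneg (hx.1 i) (M.rate_nonneg i)
  -- Cauchy-Schwarz
  have hcs : (∑ i, x i * M.rate i * M.v i) ^ 2 ≤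
      (∑ i, x i * M.rate i) * ∑ i, x i * M.rate i * M.v i ^ 2 := by
    have := Finset.sum_mul_sq_le_sq_mul_sq Finset.univ
      (fun i => Real.sqrt (x i * M.rate i)) (fun i => Real.sqrt (x i * M.rate i) * M.v i)
    have e1 : ∑ i, Real.sqrt (x i * M.rate i) * (Real.sqrt (x i * M.rate i) * M.v i) =
        ∑ i, x i * M.rate i * M.v i :=
      Finset.sum_congr rfl fun i _ => by rw [← mul_assoc, Real.mul_self_sqrt (hnn i)]
    have e2 : ∑ i, Real.sqrt (x i * M.rate i) ^ 2 = ∑ i, x i * M.rate i :=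
      Finset.sum_congr rfl fun i _ => by rw [Real.sq_sqrt (hnn i)]
    have e3 : ∑ i, (Real.sqrt (x i * M.rate i) * M.v i) ^ 2 = ∑ i, x i * M.rate i * M.v i ^ 2 :=
      Finset.sum_congr rfl fun i _ => by rw [mul_pow, Real.sq_sqrt (hnn i)]
    rwa [e1, e2, e3] at this
  rw [hx.sum_rate_v, one_pow] at hcs
  rw [h0]
  refine hcs.trans (mul_le_mul_of_nonneg_left hx.dirichlet (Finset.sum_nonneg fun i _ => hnn i))

end MMPP

end Pool.Agent.Helper54
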